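import Pool.Agent.Lib_helper53.MET.Defs2

set_option autoImplicit false

namespace Pool.Agent.MET

private theorem coeff_sum_xp {k : ℕ} (f : Fin k → (Fin k → ℤ)) (u : Fin k → ℤ) :
    (∑ i : Fin k, ((i : ℕ) + 1) • (xp (f i) : L k)).coeff u
      = ∑ i : Fin k, if f i = u then ((i : ℤ) + 1) else 0 := by
  classical
  have h : ∀ s : Finset (Fin k), (∑ i ∈ s, ((i : ℕ) + 1) • (xp (f i) : L k)).coeff u
      = ∑ i ∈ s, if f i = u then ((i : ℤ) + 1) else 0 := by
    intro s
    induction s using Finset.induction_on with
    | empty => simp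
    | insert a s ha ih =>
      rw [Finset.sum_insert ha, Finset.sum_insert ha, AddMonoidAlgebra.coeff_add, Finsupp.add_apply, ih]
      congr 1
      by_cases hu : f a = u
      · subst hu
        simp [xp]
      · simp [xp, hu]
  exact h _

/-- R4s: a change of variables which fixes `∑ (i + 1) x_i` is the identity -/
theorem ff_rigid {k : ℕ} (σ : (Fin k → ℤ) ≃+ (Fin k → ℤ)) (h : tw σ (FF k) = FF k) : ∀ v, σ v = v := by
  classical
  have hl : tw σ (FF k) = ∑ i : Fin k, ((i : ℕ) + 1) • (xp (σ (Pi.single i 1)) : L k) := by
    rw [FF, map_sum]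
    exact Finset.sum_congr rfl fun i _ => by rw [map_nsmul, tw_xp]
  have key : ∀ j : Fin k, σ (Pi.single j 1) = Pi.single j 1 := by
    intro j
    have h1 := congrArg (fun x : L k => x.coeff (Pi.single j 1)) h
    simp only [hl] at h1
    rw [coeff_sum_xp, FF, coeff_sum_xp] at h1
    have h2 : (∑ i : Fin k, if (Pi.single i 1 : Fin k → ℤ) = Pi.single j 1 then ((i : ℤ) + 1) else 0) = (j : ℤ) + 1 := by
      rw [Finset.sum_eq_single j]
      · simp
      · intro i _ hij
        have : (Pi.single i 1 : Fin k → ℤ) ≠ Pi.single j 1 := by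
          intro hh
          have := congrFun hh j
          rw [Pi.single_eq_same, Pi.single_eq_of_ne (Ne.symm hij)] at this
          exact zero_ne_one this
        simp [this]
      · intro hh; exact absurd (Finset.mem_univ _) hh
    rw [h2] at h1
    have h3 : ∃ i : Fin k, σ (Pi.single i 1) = Pi.single j 1 := by
      by_contra hne
      push Not at hne
      rw [Finset.sum_eq_zero (fun i _ => by simp [hne i])] at h1
      omega
    obtain ⟨i, hi⟩ := h3
    rw [Finset.sum_eq_single i] at h1
    · rw [if_pos hi] at h1
      have : i = j := by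
        apply Fin.ext; omega
      rwa [this] at hi
    · intro i' _ hne
      have : σ (Pi.single i' 1) ≠ Pi.single j 1 := by
        intro hh
        have h4 : (Pi.single i' 1 : Fin k → ℤ) = Pi.single i 1 := σ.injective (hh.trans hi.symm)
        have := congrFun h4 i'
        rw [Pi.single_eq_same, Pi.single_eq_of_ne hne] at this
        exact one_ne_zero this
      simp [this]
    · intro hh; exact absurd (Finset.mem_univ _) hh
  intro v
  have hv : v = ∑ i : Fin k, v i • (Pi.single i 1 : Fin k → ℤ) := by
    funext j
    simp [Finset.sum_apply, Pi.single_apply]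
  conv_lhs => rw [hv]
  rw [map_sum]
  conv_rhs => rw [hv]
  exact Finset.sum_congr rfl fun i _ => by rw [map_zsmul, key]

end Pool.Agent.MET
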