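import Pool.Agent.Lib_helper27.MET.R1d

set_option autoImplicit false

namespace Pool.Agent.MET

namespace R1eaux

/-- the action on the model -/
noncomputable def act {G V : Type*} [Group G] (q : V → Abelianization G) (a b : ℤ) (v : V)
    (m : AG G × ZQ G × ZQ G) : AG G × ZQ G × ZQ G :=
  ((MonoidAlgebra.single (q v) (1 : ℤ) : ZQ G) • m.1,
   (MonoidAlgebra.single (q v) (1 : ℤ) : ZQ G) * m.2.1,
   (MonoidAlgebra.single (q v) (1 : ℤ) : ZQ G) * (m.2.2 + a • bd G m.1 + b • m.2.1))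

theorem theta_exists {A A' Q Q' : Type*} [AddCommGroup A] [AddCommGroup A'] [CommGroup Q] [CommGroup Q']
    (q : A → Q) (q' : A' → Q') (hq : ∀ v w, q (v + w) = q v * q w) (hq' : ∀ v w, q' (v + w) = q' v * q' w)
    (hs : Function.Surjective q) (hs' : Function.Surjective q') (σ : A ≃+ A')
    (hk : ∀ v, q v = 1 ↔ q' (σ v) = 1) : ∃ θ : Q ≃* Q', ∀ v, θ (q v) = q' (σ v) := by
  have h0 : q 0 = 1 := by
    have := hq 0 0
    rw [add_zero] at this
    exact mul_eq_left.mp this.symm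
  have h0' : q' 0 = 1 := by
    have := hq' 0 0
    rw [add_zero] at this
    exact mul_eq_left.mp this.symm
  have hn : ∀ v, q (-v) = (q v)⁻¹ := fun v => by
    rw [eq_inv_iff_mul_eq_one, ← hq, neg_add_cancel, h0]
  have hn' : ∀ v, q' (-v) = (q' v)⁻¹ := fun v => by
    rw [eq_inv_iff_mul_eq_one, ← hq', neg_add_cancel, h0']
  have hiff : ∀ v w, q v = q w ↔ q' (σ v) = q' (σ w) := by
    intro v w
    have h1 := hk (v + -w)
    rw [hq, hn, map_add, map_neg, hq', hn', mul_inv_eq_one, mul_inv_eq_one] at h1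
    exact h1
  choose s hsv using hs
  choose s' hsv' using hs'
  have h1 : ∀ v, q' (σ (s (q v))) = q' (σ v) := fun v => (hiff _ _).mp (hsv _)
  have h2 : ∀ w, q (σ.symm (s' (q' w))) = q (σ.symm w) := fun w =>
    (hiff _ _).mpr (by rw [σ.apply_symm_apply, σ.apply_symm_apply, hsv'])
  refine ⟨⟨⟨fun x => q' (σ (s x)), fun y => q (σ.symm (s' y)), ?_, ?_⟩, ?_⟩, ?_⟩
  · intro x
    change q (σ.symm (s' (q' (σ (s x))))) = x
    rw [h2, σ.symm_apply_apply, hsv]
  · intro y
    change q' (σ (s (q (σ.symm (s' y))))) = y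
    rw [h1, σ.apply_symm_apply, hsv']
  · intro x y
    change q' (σ (s (x * y))) = q' (σ (s x)) * q' (σ (s y))
    have h3 : x * y = q (s x + s y) := by rw [hq, hsv, hsv]
    rw [h3, h1, map_add, hq']
  · intro v
    exact h1 v

theorem zq_induction {G : Type*} [Group G] {motive : ZQ G → Prop} (a : ZQ G) (h0 : motive 0)
    (hadd : ∀ a b, motive a → motive b → motive (a + b)) (hneg : ∀ a, motive a → motive (-a))
    (hx : ∀ v : Abelianization G, motive (MonoidAlgebra.single v 1)) : motive a := by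
  induction a using MonoidAlgebra.induction_linear with
  | zero => exact h0
  | add f g hf hg => exact hadd _ _ hf hg
  | single v r =>
    have key : ∀ r : ℤ, motive (MonoidAlgebra.single v r) := by
      intro r
      induction r using Int.induction_on with
      | zero => simpa using h0
      | succ n ih =>
        have : (MonoidAlgebra.single v ((n : ℤ) + 1) : ZQ G)
            = MonoidAlgebra.single v (n : ℤ) + MonoidAlgebra.single v 1 := by
          simp [MonoidAlgebra.single_add]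
        rw [this]; exact hadd _ _ ih (hx v)
      | pred n ih =>
        have : (MonoidAlgebra.single v (-(n : ℤ) - 1) : ZQ G)
            = MonoidAlgebra.single v (-(n : ℤ)) + -MonoidAlgebra.single v 1 := by
          rw [sub_eq_add_neg, MonoidAlgebra.single_add, ← MonoidAlgebra.single_neg (m := v) (r := (1 : ℤ))]
        rw [this]; exact hadd _ _ ih (hneg _ (hx v))
    exact key r

theorem single_inj {G : Type*} [Group G] {x y : Abelianization G}
    (h : (MonoidAlgebra.single x (1 : ℤ) : ZQ G) = MonoidAlgebra.single y 1) : x = y :=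
  MonoidAlgebra.single_left_injective one_ne_zero h

theorem arr_of_psi {G G' V V' : Type*} [Group G] [Group G'] [AddCommGroup V] [AddCommGroup V']
    (q : V → Abelianization G) (q' : V' → Abelianization G')
    (hq : ∀ v w, q (v + w) = q v * q w) (hq' : ∀ v w, q' (v + w) = q' v * q' w)
    (hs : Function.Surjective q) (hs' : Function.Surjective q') (σ : V ≃+ V')
    (ψ : AG G × ZQ G × ZQ G ≃+ AG G' × ZQ G' × ZQ G')
    (h : ∀ (a b : ℤ) v m, ψ (act q a b v m) = act q' a b (σ v) (ψ m)) : ArrIso G G' := by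
  have h0 : q 0 = 1 := by
    have := hq 0 0
    rw [add_zero] at this
    exact mul_eq_left.mp this.symm
  have h0' : q' 0 = 1 := by
    have := hq' 0 0
    rw [add_zero] at this
    exact mul_eq_left.mp this.symm
  have hinv : ∀ (a b : ℤ) v m, ψ.symm (act q' a b v m) = act q a b (σ.symm v) (ψ.symm m) := by
    intro a b v m
    apply ψ.injective
    rw [ψ.apply_symm_apply, h, ψ.apply_symm_apply, σ.apply_symm_apply]
  -- the operator `y₂ - 1`
  have hT2 : ∀ x y z, (ψ (x, y, z + y) : AG G' × ZQ G' × ZQ G')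
      = ((ψ (x, y, z)).1, (ψ (x, y, z)).2.1, (ψ (x, y, z)).2.2 + (ψ (x, y, z)).2.1) := by
    intro x y z
    have h1 := h 0 1 0 (x, y, z)
    simp only [act, h0, map_zero, h0', ← MonoidAlgebra.one_def, one_smul, one_mul, zero_smul, add_zero] at h1
    exact h1
  have hT2' : ∀ x y z, (ψ.symm (x, y, z + y) : AG G × ZQ G × ZQ G)
      = ((ψ.symm (x, y, z)).1, (ψ.symm (x, y, z)).2.1, (ψ.symm (x, y, z)).2.2 + (ψ.symm (x, y, z)).2.1) := by
    intro x y z
    have h1 := hinv 0 1 0 (x, y, z)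
    simp only [act, h0, map_zero, h0', ← MonoidAlgebra.one_def, one_smul, one_mul, zero_smul, add_zero] at h1
    exact h1
  have hT1 : ∀ x y z, (ψ (x, y, z + bd G x) : AG G' × ZQ G' × ZQ G')
      = ((ψ (x, y, z)).1, (ψ (x, y, z)).2.1, (ψ (x, y, z)).2.2 + bd G' (ψ (x, y, z)).1) := by
    intro x y z
    have h1 := h 1 0 0 (x, y, z)
    simp only [act, h0, map_zero, h0', ← MonoidAlgebra.one_def, one_smul, one_mul, zero_smul, add_zero] at h1
    exact h1
  have hz : ∀ y, ψ (0, 0, y) = (0, 0, (ψ (0, y, 0)).2.1) := by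
    intro y
    have h1 := hT2 0 y 0
    have h2 : ((0 : AG G), (0 : ZQ G), y) = (0, y, 0 + y) - (0, y, 0) := by simp
    rw [h2, map_sub, h1]
    ext <;> simp
  have hz' : ∀ y, ψ.symm (0, 0, y) = (0, 0, (ψ.symm (0, y, 0)).2.1) := by
    intro y
    have h1 := hT2' 0 y 0
    have h2 : ((0 : AG G'), (0 : ZQ G'), y) = (0, y, 0 + y) - (0, y, 0) := by simp
    rw [h2, map_sub, h1]
    ext <;> simp
  have hx : ∀ x, (ψ (x, 0, 0)).2.1 = 0 := by
    intro x
    have h1 := hT2 x 0 0
    rw [add_zero] at h1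
    have h2 := congrArg (fun t => t.2.2) h1
    simpa using h2
  have hx' : ∀ x, (ψ.symm (x, 0, 0)).2.1 = 0 := by
    intro x
    have h1 := hT2' x 0 0
    rw [add_zero] at h1
    have h2 := congrArg (fun t => t.2.2) h1
    simpa using h2
  let α : AG G → AG G' := fun x => (ψ (x, 0, 0)).1
  let α' : AG G' → AG G := fun x => (ψ.symm (x, 0, 0)).1
  let ζ : ZQ G → ZQ G' := fun y => (ψ (0, 0, y)).2.2
  let ζ' : ZQ G' → ZQ G := fun y => (ψ.symm (0, 0, y)).2.2
  have hζ : ∀ y, ψ (0, 0, y) = (0, 0, ζ y) := by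
    intro y
    change _ = (0, 0, (ψ (0, 0, y)).2.2)
    rw [hz]
  have hζ' : ∀ y, ψ.symm (0, 0, y) = (0, 0, ζ' y) := by
    intro y
    change _ = (0, 0, (ψ.symm (0, 0, y)).2.2)
    rw [hz']
  have hα : ∀ x, ψ (x, 0, 0) = (α x, 0, (ψ (x, 0, 0)).2.2) := by
    intro x
    have h1 := hx x
    exact Prod.ext rfl (Prod.ext h1 rfl)
  have hα' : ∀ x, ψ.symm (x, 0, 0) = (α' x, 0, (ψ.symm (x, 0, 0)).2.2) := by
    intro x
    have h1 := hx' x
    exact Prod.ext rfl (Prod.ext h1 rfl)
  have hαα : ∀ x, α' (α x) = x := by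
    intro x
    have h1 : ((α x, 0, 0) : AG G' × ZQ G' × ZQ G') = ψ (x, 0, 0) - (0, 0, (ψ (x, 0, 0)).2.2) := by
      rw [hα x]; ext <;> simp
    change (ψ.symm (α x, 0, 0)).1 = x
    rw [h1, map_sub, ψ.symm_apply_apply, hζ']
    simp
  have hαα' : ∀ x, α (α' x) = x := by
    intro x
    have h1 : ((α' x, 0, 0) : AG G × ZQ G × ZQ G) = ψ.symm (x, 0, 0) - (0, 0, (ψ.symm (x, 0, 0)).2.2) := by
      rw [hα' x]; ext <;> simp
    change (ψ (α' x, 0, 0)).1 = x
    rw [h1, map_sub, ψ.apply_symm_apply, hζ]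
    simp
  have hαa : ∀ x y, α (x + y) = α x + α y := by
    intro x y
    have h1 : ((x + y, 0, 0) : AG G × ZQ G × ZQ G) = (x, 0, 0) + (y, 0, 0) := by simp
    change (ψ (x + y, 0, 0)).1 = _
    rw [h1, map_add]
    rfl
  have hζζ' : ∀ y, ζ (ζ' y) = y := by
    intro y
    have h1 := hζ (ζ' y)
    rw [← hζ' y, ψ.apply_symm_apply] at h1
    exact (congrArg (fun t => t.2.2) h1).symm
  have hζa : ∀ x y, ζ (x + y) = ζ x + ζ y := by
    intro x y
    have h1 : ((0, 0, x + y) : AG G × ZQ G × ZQ G) = (0, 0, x) + (0, 0, y) := by simp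
    change (ψ (0, 0, x + y)).2.2 = _
    rw [h1, map_add]
    rfl
  have hζs : ∀ v z, ζ ((MonoidAlgebra.single (q v) (1 : ℤ) : ZQ G) * z)
      = (MonoidAlgebra.single (q' (σ v)) (1 : ℤ) : ZQ G') * ζ z := by
    intro v z
    have h1 := h 0 0 v (0, 0, z)
    simp only [act, smul_zero, mul_zero, map_zero, add_zero, zero_smul] at h1
    rw [hζ, hζ] at h1
    exact congrArg (fun t => t.2.2) h1
  have hαs : ∀ v x, α ((MonoidAlgebra.single (q v) (1 : ℤ) : ZQ G) • x)
      = (MonoidAlgebra.single (q' (σ v)) (1 : ℤ) : ZQ G') • α x := by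
    intro v x
    have h1 := h 0 0 v (x, 0, 0)
    simp only [act, mul_zero, add_zero, zero_smul] at h1
    exact congrArg (fun t => t.1) h1
  have hD : ∀ x, bd G' (α x) = ζ (bd G x) := by
    intro x
    have h1 := hT1 x 0 0
    have h2 : ((0, 0, bd G x) : AG G × ZQ G × ZQ G) = (x, 0, 0 + bd G x) - (x, 0, 0) := by simp
    have h3 := hζ (bd G x)
    rw [h2, map_sub, h1] at h3
    have h4 := congrArg (fun t => t.2.2) h3
    simpa using h4
  -- kernels
  have hk : ∀ v, q v = 1 ↔ q' (σ v) = 1 := by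
    intro v
    constructor
    · intro hv
      have h1 := hζs v (ζ' 1)
      rw [hv, ← MonoidAlgebra.one_def, one_mul, hζζ', mul_one] at h1
      exact (single_inj (by rw [← MonoidAlgebra.one_def]; exact h1)).symm
    · intro hv
      have h1 := hinv 0 0 (σ v) (0, 0, ψ.toFun (0, 0, 1) |>.2.2)
      have h2 : ((0, 0, (ψ.toFun (0, 0, 1)).2.2) : AG G' × ZQ G' × ZQ G') = ψ (0, 0, 1) := by
        rw [hζ 1]; rfl
      rw [h2] at h1
      rw [σ.symm_apply_apply, ψ.symm_apply_apply] at h1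
      have h3 : act q' 0 0 (σ v) (ψ (0, 0, 1)) = ψ (0, 0, 1) := by
        simp only [act, hv, ← MonoidAlgebra.one_def, one_smul, one_mul, zero_smul, add_zero]
      rw [h3, ψ.symm_apply_apply] at h1
      simp only [act, smul_zero, mul_zero, add_zero, mul_one, map_zero] at h1
      have h4 := congrArg (fun t => t.2.2) h1
      simp only at h4
      exact (single_inj (by rw [← MonoidAlgebra.one_def]; exact h4)).symm
  obtain ⟨θ, hθ⟩ := theta_exists q q' hq hq' hs hs' σ hk
  have hζθ : ∀ z, ζ z = MonoidAlgebra.mapDomainRingHom ℤ θ.toMonoidHom z * ζ 1 := by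
    intro z
    refine zq_induction (motive := fun z => ζ z = MonoidAlgebra.mapDomainRingHom ℤ θ.toMonoidHom z * ζ 1) z ?_ ?_ ?_ ?_
    · have := hζa 0 0
      rw [add_zero] at this
      rw [map_zero, zero_mul]
      exact left_eq_add.mp this
    · intro a b ha hb
      rw [hζa, ha, hb, map_add, add_mul]
    · intro a ha
      have h1 := hζa a (-a)
      have h2 : ζ 0 = 0 := by
        have := hζa 0 0
        rw [add_zero] at this
        exact left_eq_add.mp this
      rw [add_neg_cancel, h2] at h1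
      rw [map_neg, neg_mul, ← ha]
      exact (neg_eq_of_add_eq_zero_right h1.symm).symm
    · intro x
      obtain ⟨v, rfl⟩ := hs x
      have h1 := hζs v 1
      rw [mul_one] at h1
      rw [h1, ← hθ]
      simp
  have hu1 : MonoidAlgebra.mapDomainRingHom ℤ θ.toMonoidHom (ζ' 1) * ζ 1 = 1 := by
    rw [← hζθ, hζζ']
  refine ⟨θ, ⟨⟨α, α', hαα, hαα'⟩, hαa⟩,
    ⟨ζ 1, MonoidAlgebra.mapDomainRingHom ℤ θ.toMonoidHom (ζ' 1), by rw [mul_comm]; exact hu1, hu1⟩, ?_, ?_⟩
  · intro x m
    obtain ⟨v, rfl⟩ := hs x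
    change α _ = _ • α m
    rw [hαs, hθ]
  · intro a
    change bd G' (α a) = ζ 1 * _
    rw [hD, hζθ, mul_comm]

theorem psi_of_arr {G G' V V' : Type*} [Group G] [Group G'] [AddCommGroup V] [AddCommGroup V']
    (q : V → Abelianization G) (q' : V' → Abelianization G')
    (hσ : ∀ θ : Abelianization G ≃* Abelianization G', ∃ σ : V ≃+ V', ∀ v, q' (σ v) = θ (q v))
    (h : ArrIso G G') : ∃ (σ : V ≃+ V') (ψ : AG G × ZQ G × ZQ G ≃+ AG G' × ZQ G' × ZQ G'),
      ∀ (a b : ℤ) v m, ψ (act q a b v m) = act q' a b (σ v) (ψ m) := by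
  obtain ⟨θ, α, η, hα, hD⟩ := h
  obtain ⟨σ, hσ⟩ := hσ θ
  let t : ZQ G ≃+ ZQ G' :=
    { toFun := fun z => (η : ZQ G') * MonoidAlgebra.mapDomainRingHom ℤ θ.toMonoidHom z
      invFun := fun z => MonoidAlgebra.mapDomainRingHom ℤ θ.symm.toMonoidHom (((η⁻¹ : (ZQ G')ˣ) : ZQ G') * z)
      left_inv := by
        intro z
        change MonoidAlgebra.mapDomainRingHom ℤ θ.symm.toMonoidHom (((η⁻¹ : (ZQ G')ˣ) : ZQ G') *
          ((η : ZQ G') * MonoidAlgebra.mapDomainRingHom ℤ θ.toMonoidHom z)) = z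
        rw [Units.inv_mul_cancel_left]
        change (MonoidAlgebra.mapDomainRingHom ℤ θ.symm.toMonoidHom).comp
          (MonoidAlgebra.mapDomainRingHom ℤ θ.toMonoidHom) z = z
        rw [← MonoidAlgebra.mapDomainRingHom_comp]
        simp
      right_inv := by
        intro z
        have h1 : ∀ w : ZQ G', MonoidAlgebra.mapDomainRingHom ℤ θ.toMonoidHom
            (MonoidAlgebra.mapDomainRingHom ℤ θ.symm.toMonoidHom w) = w := by
          intro w
          change (MonoidAlgebra.mapDomainRingHom ℤ θ.toMonoidHom).comp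
            (MonoidAlgebra.mapDomainRingHom ℤ θ.symm.toMonoidHom) w = w
          rw [← MonoidAlgebra.mapDomainRingHom_comp]
          simp
        change (η : ZQ G') * MonoidAlgebra.mapDomainRingHom ℤ θ.toMonoidHom
            (MonoidAlgebra.mapDomainRingHom ℤ θ.symm.toMonoidHom (((η⁻¹ : (ZQ G')ˣ) : ZQ G') * z)) = z
        rw [h1, Units.mul_inv_cancel_left]
      map_add' := by
        intro x y
        rw [map_add, mul_add] }
  have ht : ∀ v z, t ((MonoidAlgebra.single (q v) (1 : ℤ) : ZQ G) * z)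
      = (MonoidAlgebra.single (q' (σ v)) (1 : ℤ) : ZQ G') * t z := by
    intro v z
    change (η : ZQ G') * MonoidAlgebra.mapDomainRingHom ℤ θ.toMonoidHom _ = _ * ((η : ZQ G') * _)
    rw [map_mul, hσ]
    have : MonoidAlgebra.mapDomainRingHom ℤ θ.toMonoidHom (MonoidAlgebra.single (q v) (1 : ℤ) : ZQ G)
        = MonoidAlgebra.single (θ (q v)) 1 := by simp
    rw [this]
    ring
  refine ⟨σ, AddEquiv.prodCongr α (AddEquiv.prodCongr t t), ?_⟩
  intro a b v m
  obtain ⟨x, y, z⟩ := m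
  have h1 : α ((MonoidAlgebra.single (q v) (1 : ℤ) : ZQ G) • x)
      = (MonoidAlgebra.single (q' (σ v)) (1 : ℤ) : ZQ G') • α x := by
    rw [hα, hσ]
  have h2 : t (bd G x) = bd G' (α x) := (hD x).symm
  change (α _, t _, t _) = (_, _, _)
  simp only [ht, h1, map_add, map_zsmul, h2]
  rfl

/-- the part of `qv` over the first `n` coordinates -/
noncomputable def q0 (c : GCode) (a : Fin c.1 → ℤ) : Abelianization (MG c) :=
  ∏ i : Fin c.1, (Abelianization.of (PresentedGroup.of i : MG c)) ^ (a i)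

theorem q0_add (c : GCode) (a b : Fin c.1 → ℤ) : q0 c (a + b) = q0 c a * q0 c b := by
  simp only [q0, Pi.add_apply, zpow_add, Finset.prod_mul_distrib]

theorem q0_zero (c : GCode) : q0 c 0 = 1 :=
  Finset.prod_eq_one fun _ _ => zpow_zero _

theorem q0_neg (c : GCode) (a : Fin c.1 → ℤ) : q0 c (-a) = (q0 c a)⁻¹ := by
  rw [eq_inv_iff_mul_eq_one, ← q0_add, neg_add_cancel, q0_zero]

theorem q0_sub (c : GCode) (a b : Fin c.1 → ℤ) : q0 c (a - b) = q0 c a * (q0 c b)⁻¹ := by
  rw [sub_eq_add_neg, q0_add, q0_neg]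

theorem q0_single (c : GCode) (i : Fin c.1) : q0 c (Pi.single i 1) = Abelianization.of (PresentedGroup.of i : MG c) := by
  classical
  rw [q0, Finset.prod_eq_single i]
  · rw [Pi.single_eq_same]; exact zpow_one _
  · intro j _ hj
    rw [Pi.single_eq_of_ne hj, zpow_zero]
  · intro h; exact absurd (Finset.mem_univ _) h

theorem q0_surj (c : GCode) : Function.Surjective (q0 c) := by
  intro x
  obtain ⟨g, rfl⟩ := QuotientGroup.mk_surjective x
  change ∃ a, q0 c a = Abelianization.of g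
  have hg : g ∈ Subgroup.closure (Set.range (PresentedGroup.of : Fin c.1 → MG c)) := by
    rw [PresentedGroup.closure_range_of]; trivial
  induction hg using Subgroup.closure_induction with
  | mem x hx =>
    obtain ⟨i, rfl⟩ := hx
    exact ⟨_, q0_single c i⟩
  | one => exact ⟨0, by rw [q0_zero, map_one]⟩
  | mul x y _ _ hx hy =>
    obtain ⟨a, ha⟩ := hx
    obtain ⟨b, hb⟩ := hy
    exact ⟨a + b, by rw [q0_add, ha, hb, map_mul]⟩
  | inv x _ hx =>
    obtain ⟨a, ha⟩ := hx
    exact ⟨-a, by rw [q0_neg, ha, map_inv]⟩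

theorem qv_eq (c : GCode) (s : ℕ) (v : Fin (c.1 + s) → ℤ) : qv c s v = q0 c (fun i => v (Fin.castAdd s i)) := rfl

theorem qv_add (c : GCode) (s : ℕ) (v w : Fin (c.1 + s) → ℤ) : qv c s (v + w) = qv c s v * qv c s w := by
  rw [qv_eq, qv_eq, qv_eq, ← q0_add]
  rfl

theorem qv_surj (c : GCode) (s : ℕ) : Function.Surjective (qv c s) := by
  intro x
  obtain ⟨a, ha⟩ := q0_surj c x
  refine ⟨Fin.append a 0, ?_⟩
  rw [qv_eq, ← ha]
  congr 1
  funext i
  simp

/-- additive lift of a homomorphism -/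
theorem lift_exists (c c' : GCode) (θ : Abelianization (MG c) →* Abelianization (MG c')) :
    ∃ u : (Fin c.1 → ℤ) →+ (Fin c'.1 → ℤ), ∀ a, q0 c' (u a) = θ (q0 c a) := by
  classical
  choose w hw using fun i : Fin c.1 => q0_surj c' (θ (Abelianization.of (PresentedGroup.of i : MG c)))
  refine ⟨⟨⟨fun a => ∑ i, a i • w i, by simp⟩, ?_⟩, ?_⟩
  · intro a b
    simp [add_smul, Finset.sum_add_distrib]
  · intro a
    change q0 c' (∑ i, a i • w i) = _
    let Q : Multiplicative (Fin c'.1 → ℤ) →* Abelianization (MG c') :=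
      ⟨⟨fun v => q0 c' (Multiplicative.toAdd v), q0_zero c'⟩, fun v w => q0_add c' _ _⟩
    have h1 : ∀ s : Finset (Fin c.1), q0 c' (∑ i ∈ s, a i • w i)
        = ∏ i ∈ s, (θ (Abelianization.of (PresentedGroup.of i : MG c))) ^ (a i) := by
      intro s
      induction s using Finset.induction_on with
      | empty => simp [q0_zero]
      | insert i s hi ih =>
        rw [Finset.sum_insert hi, Finset.prod_insert hi, q0_add, ih]
        congr 1
        have h2 := map_zpow Q (Multiplicative.ofAdd (w i)) (a i)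
        rw [← ofAdd_zsmul] at h2
        change q0 c' (a i • w i) = (q0 c' (w i)) ^ (a i) at h2
        rw [h2, hw]
    rw [h1, q0, map_prod]
    exact Finset.prod_congr rfl fun i _ => by rw [map_zpow]

theorem sigma_exists (c c' : GCode) (θ : Abelianization (MG c) ≃* Abelianization (MG c')) :
    ∃ σ : (Fin (c.1 + c'.1) → ℤ) ≃+ (Fin (c'.1 + c.1) → ℤ), ∀ v, qv c' c.1 (σ v) = θ (qv c c'.1 v) := by
  obtain ⟨u, hu⟩ := lift_exists c c' θ.toMonoidHom
  obtain ⟨u', hu'⟩ := lift_exists c' c θ.symm.toMonoidHom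
  let A : (Fin (c.1 + c'.1) → ℤ) → (Fin c.1 → ℤ) := fun v i => v (Fin.castAdd c'.1 i)
  let B : (Fin (c.1 + c'.1) → ℤ) → (Fin c'.1 → ℤ) := fun v i => v (Fin.natAdd c.1 i)
  let C : (Fin (c'.1 + c.1) → ℤ) → (Fin c'.1 → ℤ) := fun v i => v (Fin.castAdd c.1 i)
  let D : (Fin (c'.1 + c.1) → ℤ) → (Fin c.1 → ℤ) := fun v i => v (Fin.natAdd c'.1 i)
  have hAB : ∀ a b, A (Fin.append a b) = a ∧ B (Fin.append a b) = b := by
    intro a b
    constructor <;> funext i <;> simp [A, B]
  have hCD : ∀ a b, C (Fin.append a b) = a ∧ D (Fin.append a b) = b := by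
    intro a b
    constructor <;> funext i <;> simp [C, D]
  have eAB : ∀ v, Fin.append (A v) (B v) = v := by
    intro v
    funext i
    refine Fin.addCases (fun j => ?_) (fun j => ?_) i <;> simp [A, B]
  have eCD : ∀ v, Fin.append (C v) (D v) = v := by
    intro v
    funext i
    refine Fin.addCases (fun j => ?_) (fun j => ?_) i <;> simp [C, D]
  refine ⟨⟨⟨fun v => Fin.append (B v + u (A v - u' (B v))) (A v - u' (B v)),
    fun w => Fin.append (D w + u' (C w - u (D w))) (C w - u (D w)), ?_, ?_⟩, ?_⟩, ?_⟩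
  · intro v
    simp only [(hCD _ _).1, (hCD _ _).2]
    rw [add_sub_cancel_right, sub_add_cancel]
    exact eAB v
  · intro w
    simp only [(hAB _ _).1, (hAB _ _).2]
    rw [add_sub_cancel_right, sub_add_cancel]
    exact eCD w
  · intro v w
    have hA : A (v + w) = A v + A w := rfl
    have hB : B (v + w) = B v + B w := rfl
    have happ : ∀ (a a' : Fin c'.1 → ℤ) (b b' : Fin c.1 → ℤ),
        Fin.append (a + a') (b + b') = Fin.append a b + Fin.append a' b' := by
      intro a a' b b'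
      funext i
      refine Fin.addCases (fun j => ?_) (fun j => ?_) i <;> simp
    change Fin.append (B (v + w) + u (A (v + w) - u' (B (v + w)))) (A (v + w) - u' (B (v + w))) = _
    rw [hA, hB, ← happ]
    congr 1
    · simp only [map_add, map_sub]; abel
    · simp only [map_add]; abel
  · intro v
    change q0 c' (C (Fin.append (B v + u (A v - u' (B v))) (A v - u' (B v)))) = θ (q0 c (A v))
    rw [(hCD _ _).1, q0_add, hu, q0_sub, hu', map_mul, map_inv]
    change q0 c' (B v) * (θ (q0 c (A v)) * (θ (θ.symm (q0 c' (B v))))⁻¹) = _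
    rw [θ.apply_symm_apply]
    rw [mul_comm (θ (q0 c (A v))), mul_inv_cancel_left]

theorem r1e_aux (c c' : GCode) :
    (∃ (σ : (Fin (c.1 + c'.1) → ℤ) ≃+ (Fin (c'.1 + c.1) → ℤ))
      (φ : PM (c.1 + c'.1 + 2) (c.1 + 2) (metFr c c'.1).2.2 ≃+ PM (c'.1 + c.1 + 2) (c'.1 + 2) (metFr c' c.1).2.2),
      ∀ (a b : ℤ) v m, φ (xp (fr a b v) • m) = xp (fr a b (σ v)) • φ m) ↔ ArrIso (MG c) (MG c') := by
  obtain ⟨Φ, hΦ⟩ := r1d c c'.1
  obtain ⟨Φ', hΦ'⟩ := r1d c' c.1
  have hA : ∀ (a b : ℤ) v m, Φ (xp (fr a b v) • m) = act (qv c c'.1) a b v (Φ m) := hΦ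
  have hA' : ∀ (a b : ℤ) v m, Φ' (xp (fr a b v) • m) = act (qv c' c.1) a b v (Φ' m) := hΦ'
  clear hΦ hΦ'
  constructor
  · rintro ⟨σ, φ, h⟩
    refine arr_of_psi (qv c c'.1) (qv c' c.1) (qv_add _ _) (qv_add _ _) (qv_surj _ _) (qv_surj _ _) σ
      (Φ.symm.trans (φ.trans Φ')) ?_
    intro a b v m
    have h1 : Φ.symm (act (qv c c'.1) a b v m) = xp (fr a b v) • Φ.symm m := by
      rw [AddEquiv.symm_apply_eq, hA, Φ.apply_symm_apply]
    simp only [AddEquiv.trans_apply]
    rw [h1, h, hA']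
  · intro h
    obtain ⟨σ, ψ, hψ⟩ := psi_of_arr (qv c c'.1) (qv c' c.1) (sigma_exists c c') h
    refine ⟨σ, (Φ.trans ψ).trans Φ'.symm, ?_⟩
    intro a b v m
    simp only [AddEquiv.trans_apply]
    rw [AddEquiv.symm_apply_eq, hA, hψ, hA', Φ'.apply_symm_apply]

end R1eaux

open R1eaux in
/-- R1e (from R1d) -/
theorem r1e (p : GCode × GCode) :
    FrIso (metFr p.1 p.2.1, metFr p.2 p.1.1) ↔ ArrIso (MG p.1) (MG p.2) :=
  r1e_aux p.1 p.2

end Pool.Agent.MET
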