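import Pool.Agent.Lib_helper53.MET.Base

set_option autoImplicit false

namespace Pool.Agent.MET

namespace R6baux

variable {k k' : ℕ} {M M' : Type} [AddCommGroup M] [Module (L k) M] [AddCommGroup M'] [Module (L k') M']

theorem acM_apply (v : Multiplicative (Fin k → ℤ)) (m : Multiplicative M) :
    acM k M v m = Multiplicative.ofAdd ((xp (Multiplicative.toAdd v) : L k) • Multiplicative.toAdd m) := rfl

theorem right_iff (hM : ∀ v : Fin k → ℤ, (∀ (w : Fin k → ℤ) (m : M),
      (xp v : L k) • ((xp w : L k) • m - m) = (xp w : L k) • m - m) → v = 0) (g : SD k M) :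
    g.right = 1 ↔ ∀ a b : SD k M, g * (a * b * a⁻¹ * b⁻¹) = (a * b * a⁻¹ * b⁻¹) * g := by
  constructor
  · intro hg a b
    have hc : (a * b * a⁻¹ * b⁻¹).right = 1 := by
      simp only [SemidirectProduct.mul_right, SemidirectProduct.inv_right]
      rw [mul_comm a.right b.right]; group
    generalize a * b * a⁻¹ * b⁻¹ = c at hc ⊢
    apply SemidirectProduct.ext
    · rw [SemidirectProduct.mul_left, SemidirectProduct.mul_left, hg, hc, map_one, MulAut.one_apply,
        MulAut.one_apply, mul_comm]
    · rw [SemidirectProduct.mul_right, SemidirectProduct.mul_right, mul_comm]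
  · intro h
    have hv : Multiplicative.toAdd g.right = 0 := by
      apply hM
      intro w m
      have h1 := h (SemidirectProduct.inr (Multiplicative.ofAdd w)) (SemidirectProduct.inl (Multiplicative.ofAdd m))
      have h2 : (SemidirectProduct.inr (Multiplicative.ofAdd w) * SemidirectProduct.inl (Multiplicative.ofAdd m)
          * (SemidirectProduct.inr (Multiplicative.ofAdd w))⁻¹ * (SemidirectProduct.inl (Multiplicative.ofAdd m))⁻¹ : SD k M)
          = SemidirectProduct.inl (Multiplicative.ofAdd ((xp w : L k) • m - m)) := by
        have h3 := SemidirectProduct.inl_aut (φ := acM k M) (Multiplicative.ofAdd w) (Multiplicative.ofAdd m)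
        rw [map_inv] at h3
        rw [← h3, ← map_inv, ← map_mul, acM_apply, sub_eq_add_neg]
        rfl
      rw [h2] at h1
      have h4 := congrArg SemidirectProduct.left h1
      rw [SemidirectProduct.mul_left, SemidirectProduct.mul_left, SemidirectProduct.left_inl,
        SemidirectProduct.right_inl, map_one, MulAut.one_apply, mul_comm, mul_right_cancel_iff] at h4
      exact h4
    exact hv

end R6baux

open R6baux in
/-- R6b -/
theorem r6b {k k' : ℕ} {M M' : Type} [AddCommGroup M] [Module (L k) M] [AddCommGroup M'] [Module (L k') M']
    (hM : ∀ v : Fin k → ℤ, (∀ (w : Fin k → ℤ) (m : M),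
      (xp v : L k) • ((xp w : L k) • m - m) = (xp w : L k) • m - m) → v = 0)
    (hM' : ∀ v : Fin k' → ℤ, (∀ (w : Fin k' → ℤ) (m : M'),
      (xp v : L k') • ((xp w : L k') • m - m) = (xp w : L k') • m - m) → v = 0) :
    Nonempty (SD k M ≃* SD k' M') ↔ ∃ (σ : (Fin k → ℤ) ≃+ (Fin k' → ℤ)) (φ : M ≃+ M'),
      ∀ (v : Fin k → ℤ) (m : M), φ ((xp v : L k) • m) = (xp (σ v) : L k') • φ m := by
  constructor
  · rintro ⟨e⟩
    -- `e` and its inverse preserve the kernels
    have he : ∀ g : SD k M, g.right = 1 → (e g).right = 1 := by
      intro g hg
      rw [right_iff hM] at hg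
      rw [right_iff hM']
      intro a b
      have := congrArg e (hg (e.symm a) (e.symm b))
      simpa only [map_mul, map_inv, MulEquiv.apply_symm_apply] using this
    have he' : ∀ g : SD k' M', g.right = 1 → (e.symm g).right = 1 := by
      intro g hg
      rw [right_iff hM'] at hg
      rw [right_iff hM]
      intro a b
      have := congrArg e.symm (hg (e a) (e b))
      simpa only [map_mul, map_inv, MulEquiv.symm_apply_apply] using this
    have hinl : ∀ g : SD k M, g.right = 1 → g = SemidirectProduct.inl g.left := by
      intro g hg
      apply SemidirectProduct.ext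
      · rw [SemidirectProduct.left_inl]
      · rw [SemidirectProduct.right_inl, hg]
    have hinl' : ∀ g : SD k' M', g.right = 1 → g = SemidirectProduct.inl g.left := by
      intro g hg
      apply SemidirectProduct.ext
      · rw [SemidirectProduct.left_inl]
      · rw [SemidirectProduct.right_inl, hg]
    let f : M → M' := fun m => Multiplicative.toAdd (e (SemidirectProduct.inl (Multiplicative.ofAdd m))).left
    let f' : M' → M := fun m => Multiplicative.toAdd (e.symm (SemidirectProduct.inl (Multiplicative.ofAdd m))).left
    have hf : ∀ m, e (SemidirectProduct.inl (Multiplicative.ofAdd m)) = SemidirectProduct.inl (Multiplicative.ofAdd (f m)) :=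
      fun m => hinl' _ (he _ (SemidirectProduct.right_inl _))
    have hf' : ∀ m, e.symm (SemidirectProduct.inl (Multiplicative.ofAdd m))
        = SemidirectProduct.inl (Multiplicative.ofAdd (f' m)) :=
      fun m => hinl _ (he' _ (SemidirectProduct.right_inl _))
    let s : (Fin k → ℤ) → (Fin k' → ℤ) := fun v =>
      Multiplicative.toAdd (e (SemidirectProduct.inr (Multiplicative.ofAdd v))).right
    let s' : (Fin k' → ℤ) → (Fin k → ℤ) := fun v =>
      Multiplicative.toAdd (e.symm (SemidirectProduct.inr (Multiplicative.ofAdd v))).right
    have hff : ∀ m, f' (f m) = m := by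
      intro m
      have h1 := hf' (f m)
      rw [← hf m, MulEquiv.symm_apply_apply] at h1
      exact (Multiplicative.ofAdd.injective (SemidirectProduct.inl_injective h1)).symm
    have hff' : ∀ m, f (f' m) = m := by
      intro m
      have h1 := hf (f' m)
      rw [← hf' m, MulEquiv.apply_symm_apply] at h1
      exact (Multiplicative.ofAdd.injective (SemidirectProduct.inl_injective h1)).symm
    have hfa : ∀ m n, f (m + n) = f m + f n := by
      intro m n
      have h1 := hf (m + n)
      rw [ofAdd_add, map_mul, map_mul, hf, hf, ← map_mul] at h1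
      exact (Multiplicative.ofAdd.injective (SemidirectProduct.inl_injective h1)).symm
    have hdec : ∀ g : SD k' M', g = SemidirectProduct.inl g.left * SemidirectProduct.inr g.right :=
      fun g => (SemidirectProduct.inl_left_mul_inr_right g).symm
    have hdec0 : ∀ g : SD k M, g = SemidirectProduct.inl g.left * SemidirectProduct.inr g.right :=
      fun g => (SemidirectProduct.inl_left_mul_inr_right g).symm
    have hss : ∀ v, s' (s v) = v := by
      intro v
      have h1 := hdec (e (SemidirectProduct.inr (Multiplicative.ofAdd v)))
      have h2 := congrArg (fun g => (e.symm g).right) h1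
      simp only [map_mul, MulEquiv.symm_apply_apply, SemidirectProduct.mul_right, SemidirectProduct.right_inr] at h2
      rw [he' _ (SemidirectProduct.right_inl _), one_mul] at h2
      exact (congrArg Multiplicative.toAdd h2).symm
    have hss' : ∀ v, s (s' v) = v := by
      intro v
      have h1 := hdec0 (e.symm (SemidirectProduct.inr (Multiplicative.ofAdd v)))
      have h2 := congrArg (fun g => (e g).right) h1
      simp only [map_mul, MulEquiv.apply_symm_apply, SemidirectProduct.mul_right, SemidirectProduct.right_inr] at h2
      rw [he _ (SemidirectProduct.right_inl _), one_mul] at h2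
      exact (congrArg Multiplicative.toAdd h2).symm
    have hsa : ∀ v w, s (v + w) = s v + s w := by
      intro v w
      simp only [s, ofAdd_add, map_mul, SemidirectProduct.mul_right, toAdd_mul]
    refine ⟨⟨⟨s, s', hss, hss'⟩, hsa⟩, ⟨⟨f, f', hff, hff'⟩, hfa⟩, ?_⟩
    intro v m
    change f ((xp v : L k) • m) = (xp (s v) : L k') • f m
    have h1 := congrArg e (SemidirectProduct.inl_aut (φ := acM k M) (Multiplicative.ofAdd v) (Multiplicative.ofAdd m))
    rw [acM_apply, map_mul, map_mul, map_inv, map_inv] at h1
    simp only [toAdd_ofAdd] at h1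
    rw [hf, hf] at h1
    have h2 := congrArg SemidirectProduct.left h1
    rw [SemidirectProduct.left_inl] at h2
    simp only [SemidirectProduct.mul_left, SemidirectProduct.left_inl, SemidirectProduct.right_inl, 
      SemidirectProduct.mul_right, SemidirectProduct.inv_left, mul_one] at h2
    have h3 : ∀ x : Multiplicative M', (acM k' M' (e (SemidirectProduct.inr (Multiplicative.ofAdd v))).right)
        ((acM k' M' (e (SemidirectProduct.inr (Multiplicative.ofAdd v))).right⁻¹) x) = x := by
      intro x
      rw [← MulAut.mul_apply, ← map_mul, mul_inv_cancel, map_one, MulAut.one_apply]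
    rw [h3, acM_apply] at h2
    have h4 := congrArg Multiplicative.toAdd h2
    simp only [toAdd_ofAdd, toAdd_mul, toAdd_inv] at h4
    rw [h4]
    abel
  · rintro ⟨σ, φ, h⟩
    refine ⟨SemidirectProduct.congr (AddEquiv.toMultiplicative φ) (AddEquiv.toMultiplicative σ) ?_⟩
    intro v
    apply MulEquiv.ext
    intro m
    change Multiplicative.ofAdd (φ ((xp (Multiplicative.toAdd v) : L k) • Multiplicative.toAdd m)) = 
      Multiplicative.ofAdd ((xp (σ (Multiplicative.toAdd v)) : L k') • φ (Multiplicative.toAdd m))
    rw [h]

end Pool.Agent.MET
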